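import Pool.Agent.Y395.RS.Stm2

set_option autoImplicit false

/-! Project RS (helper395): the choice of the parameters. -/

namespace Pool.Agent.Y412.RS.NUM

open Filter Topology Pool.Agent.Y395.RS

theorem tool (a c : ℕ) : ∃ t0 : ℕ, ∀ t, t0 ≤ t → c * (t + 1) ^ a ≤ 2 ^ t := by
  have h := tendsto_pow_const_div_const_pow_of_one_lt a (r := (2 : ℝ)) (by norm_num)
  have hc : (0 : ℝ) < 1 / (2 * ((c : ℝ) + 1)) := by positivity
  have h1 := (tendsto_order.1 h).2 _ hc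
  rw [eventually_atTop] at h1
  obtain ⟨t0, h0⟩ := h1
  refine ⟨t0, fun t ht => ?_⟩
  have h2 := h0 (t + 1) (by omega)
  rw [div_lt_div_iff₀ (by positivity) (by positivity), one_mul] at h2
  have h3 : ((c * (t + 1) ^ a : ℕ) : ℝ) ≤ ((2 ^ t : ℕ) : ℝ) := by
    push_cast at h2 ⊢
    have h4 : (0 : ℝ) ≤ ((t : ℝ) + 1) ^ a := by positivity
    have h5 : (2 : ℝ) ^ (t + 1) = 2 * 2 ^ t := by ring
    rw [h5] at h2
    nlinarith
  exact_mod_cast h3

theorem exp_bound (k r : ℕ) :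
    (1 - (1 / 2 : ℝ) ^ k) ^ (2 ^ (k + r)) ≤ Real.exp (-(2 ^ r : ℝ)) := by
  have h1 : (0 : ℝ) ≤ 1 - (1 / 2 : ℝ) ^ k := by
    have := pow_le_one₀ (n := k) (a := (1 / 2 : ℝ)) (by norm_num) (by norm_num)
    linarith
  have h2 : 1 - (1 / 2 : ℝ) ^ k ≤ Real.exp (-(1 / 2 : ℝ) ^ k) := by
    have := Real.add_one_le_exp (-(1 / 2 : ℝ) ^ k)
    linarith
  calc (1 - (1 / 2 : ℝ) ^ k) ^ (2 ^ (k + r)) ≤ (Real.exp (-(1 / 2 : ℝ) ^ k)) ^ (2 ^ (k + r)) :=
        pow_le_pow_left₀ h1 h2 _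
    _ = Real.exp (((2 ^ (k + r) : ℕ) : ℝ) * (-(1 / 2 : ℝ) ^ k)) := by
        rw [← Real.exp_nat_mul]
    _ = Real.exp (-(2 ^ r : ℝ)) := by
        congr 1
        push_cast
        rw [pow_add, one_div, inv_pow]
        field_simp

/-- powers of one half -/
theorem half_pow (k : ℕ) : (1 / 2 : ℝ) ^ k = ((2 : ℝ) ^ k)⁻¹ := by
  rw [one_div, inv_pow]

theorem three_quarters (k : ℕ) : (3 / 4 : ℝ) ^ (5 * k) ≤ (1 / 2 : ℝ) ^ (2 * k) := by
  rw [pow_mul, pow_mul]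
  exact pow_le_pow_left₀ (by norm_num) (by norm_num) _

theorem three_quarters' {m k : ℕ} (h : 5 * k ≤ m) : (3 / 4 : ℝ) ^ m ≤ (1 / 2 : ℝ) ^ (2 * k) :=
  le_trans (pow_le_pow_of_le_one (by norm_num) (by norm_num) h) (three_quarters k)

theorem main : NUM := by
  obtain ⟨J, hJ⟩ : ∃ J : ℕ, J = 6400000 := ⟨_, rfl⟩
  obtain ⟨K, hK⟩ : ∃ K : ℕ, K = 2001 := ⟨_, rfl⟩
  obtain ⟨t1, h1⟩ := tool 1 (16001 * J + 10000000)
  obtain ⟨t2, h2⟩ := tool (K + 3) (2666 ^ (K + 3))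
  obtain ⟨T, hT1, hT2, hT3⟩ : ∃ T : ℕ, t1 ≤ T ∧ t2 ≤ T ∧ 10485760000000001 ≤ T :=
    ⟨max t1 (max t2 10485760000000001), le_max_left _ _,
      le_trans (le_max_left _ _) (le_max_right _ _),
      le_trans (le_max_right _ _) (le_max_right _ _)⟩
  refine ⟨2 ^ (16000 * T), fun n hn => ?_⟩
  have hnpos : 0 < n := lt_of_lt_of_le (Nat.two_pow_pos _) hn
  obtain ⟨L, hL⟩ : ∃ L, L = Nat.log 2 n := ⟨_, rfl⟩
  have hL1 : 2 ^ L ≤ n := by
    rw [hL]
    exact Nat.pow_log_le_self 2 hnpos.ne'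
  have hL2 : n < 2 ^ (L + 1) := by
    rw [hL]
    exact Nat.lt_pow_succ_log_self (by norm_num) n
  have hLT : 16000 * T ≤ L := by
    rw [hL]
    exact Nat.le_log_of_pow_le (by norm_num) hn
  clear hn
  obtain ⟨t, ht⟩ : ∃ t, t = L / 16000 := ⟨_, rfl⟩
  have htL1 : 16000 * t ≤ L := by omega
  have htL2 : L + 1 ≤ 16000 * (t + 1) := by omega
  have htT : T ≤ t := by omega
  have lin : ∀ c, c ≤ 16001 * J + 10000000 → c * (t + 1) ≤ 2 ^ t := fun c hc => by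
    have := h1 t (le_trans hT1 htT)
    rw [pow_one] at this
    exact le_trans (Nat.mul_le_mul_right _ hc) this
  have k2 : 2666 ^ (K + 3) * (t + 1) ^ (K + 3) ≤ 2 ^ t := h2 t (le_trans hT2 htT)
  have k2r : (2666 : ℝ) ^ (K + 3) * ((t : ℝ) + 1) ^ (K + 3) ≤ 2 ^ t := by exact_mod_cast k2
  clear k2
  have tbig : 10485760000000001 ≤ t := le_trans hT3 htT
  have n1 : 2 ^ (16000 * t) ≤ n := le_trans (Nat.pow_le_pow_right (by norm_num) htL1) hL1
  have n2 : n ≤ 2 ^ (16000 * (t + 1)) :=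
    le_trans hL2.le (Nat.pow_le_pow_right (by norm_num) htL2)
  have n1r : (2 : ℝ) ^ (16000 * t) ≤ n := by exact_mod_cast n1
  have n2r : (n : ℝ) ≤ (2 : ℝ) ^ (16000 * (t + 1)) := by exact_mod_cast n2
  have npr : (0 : ℝ) < n := by exact_mod_cast hnpos
  clear n1 n2
  have big2 : ∀ {x y : ℕ}, x ≤ y → 2 ^ x ≤ 2 ^ y := fun h => Nat.pow_le_pow_right (by norm_num) h
  have hexp : Real.exp (-(2 ^ t : ℝ)) ≤ 1 / n := by
    rw [Real.exp_neg, one_div]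
    apply inv_anti₀ npr
    have e1 : (n : ℝ) ≤ 2 ^ (L + 1) := by exact_mod_cast hL2.le
    have e2 : (2 : ℝ) ^ (L + 1) ≤ (Real.exp 1) ^ (L + 1) := by
      apply pow_le_pow_left₀ (by norm_num)
      have := Real.add_one_le_exp (1 : ℝ)
      linarith
    have e3 : (Real.exp 1) ^ (L + 1) = Real.exp ((L + 1 : ℕ) : ℝ) := by
      rw [← Real.exp_nat_mul, mul_one]
    have e4 : ((L + 1 : ℕ) : ℝ) ≤ (2 : ℝ) ^ t := by
      have h5 : L + 1 ≤ 2 ^ t := le_trans htL2 (lin 16000 (by omega))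
      exact_mod_cast h5
    calc (n : ℝ) ≤ 2 ^ (L + 1) := e1
      _ ≤ (Real.exp 1) ^ (L + 1) := e2
      _ = Real.exp ((L + 1 : ℕ) : ℝ) := e3
      _ ≤ Real.exp (2 ^ t : ℝ) := Real.exp_le_exp.2 e4
  refine ⟨t, 2 ^ (2 * t), 2 ^ (4 * t), J, 2 ^ t, 2 ^ (2 * t), 8000 * t, 2 ^ (12000 * t), 2666 * t,
    148 * t, K, (1 / 2) ^ (40 * t), ?_, by omega, Nat.one_le_two_pow, ?_, ?_, ?_, ?_, ?_, ?_, ?_,
    ?_, by omega, by omega, by omega, ?_, ?_, ?_, ?_⟩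
  · -- 3 ≤ n
    have h3 : 2 ≤ L := by omega
    have : 2 ^ 2 ≤ 2 ^ L := big2 h3
    omega
  · have := exp_bound t t
    rw [show t + t = 2 * t by ring] at this
    exact le_trans this hexp
  · rw [← hL]
    have a1 : 300 * (L + 1) + 3 ≤ 4800003 * (t + 1) := by omega
    have a2 : 9600007 * (t + 1) ≤ 2 ^ t := lin _ (by omega)
    have a3 : 2 ^ t ≤ 2 ^ (2 * t) := big2 (by omega)
    have a4 : (300 * (L + 1) + 3) + (300 * (L + 1) + 3) + (t + 1) ≤ 2 ^ (2 * t) := by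
      linarith
    have a5 : 1 ≤ 2 ^ (2 * t) := Nat.one_le_two_pow
    have a6 : 2 ^ (4 * t) = 2 ^ (2 * t) * 2 ^ (2 * t) := by rw [← pow_add]; congr 1; ring
    rw [a6]
    obtain ⟨Y, hY⟩ : ∃ Y, Y = 2 ^ (2 * t) := ⟨_, rfl⟩
    obtain ⟨X, hX⟩ : ∃ X, X = 300 * (L + 1) + 3 := ⟨_, rfl⟩
    rw [← hY, ← hX] at a4 ⊢
    rw [← hY] at a5
    calc X * Y + X + Y * (t + 1) ≤ X * Y + X * Y + Y * (t + 1) := by
          have := Nat.mul_le_mul_left X a5
          linarith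
      _ = Y * (X + X + (t + 1)) := by ring
      _ ≤ Y * Y := Nat.mul_le_mul_left _ a4
  · rw [hJ]
    have : (16 * 6400000) ^ 2 = 10485760000000000 := by norm_num
    omega
  · have ex : 16000 * (t + 1) * 200 ≤ t * J := by
      rw [hJ]
      linarith
    have n2 : n ≤ 2 ^ (16000 * (t + 1)) := by exact_mod_cast n2r
    calc n ^ 200 ≤ (2 ^ (16000 * (t + 1))) ^ 200 := Nat.pow_le_pow_left n2 _
      _ = 2 ^ (16000 * (t + 1) * 200) := by rw [← pow_mul]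
      _ ≤ 2 ^ (t * J) := big2 ex
      _ = (2 ^ t) ^ J := by rw [pow_mul]
      _ ≤ (2 ^ t + 1) ^ J := Nat.pow_le_pow_left (Nat.le_succ _) _
      _ ≤ (2 ^ t + 1) ^ (J + 1) := Nat.pow_le_pow_right (Nat.succ_pos _) (Nat.le_succ _)
  · rw [← hL]
    have a1 : 400 * (L + 1) + 5 ≤ 6400005 * (t + 1) := by omega
    have a2 : 6400005 * (t + 1) ≤ 2 ^ t := lin _ (by omega)
    have a5 : 1 ≤ 2 ^ t := Nat.one_le_two_pow
    have a6 : 2 ^ (2 * t) = 2 ^ t * 2 ^ t := by rw [← pow_add]; congr 1; ring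
    rw [a6]
    have a7 : 400 * (L + 1) + 5 ≤ 2 ^ t := le_trans a1 a2
    generalize 2 ^ t = Y at a5 a7 ⊢
    calc 400 * (L + 1) * Y + 5 ≤ 400 * (L + 1) * Y + 5 * Y := by omega
      _ = (400 * (L + 1) + 5) * Y := by ring
      _ ≤ Y * Y := Nat.mul_le_mul_right _ a7
  · have b1 : n + 2 ≤ 2 ^ (L + 2) := by
      have : 2 ^ (L + 2) = 2 ^ (L + 1) + 2 ^ (L + 1) := by ring
      have h3 : 2 ^ 1 ≤ 2 ^ (L + 1) := Nat.pow_le_pow_right (by norm_num) (by omega)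
      omega
    have b2 : 5 + (L + 2) * J + (L + 1) * 10 ≤ 2 ^ (2 * t) := by
      have c1 : (L + 2) * J ≤ (16001 * (t + 1)) * J := Nat.mul_le_mul_right _ (by omega)
      have c2 : (L + 1) * 10 ≤ 160000 * (t + 1) := by omega
      have c3 : (16001 * J + 10000000) * (t + 1) = (16001 * (t + 1)) * J + 10000000 * (t + 1) := by
        ring
      have c4 : 2 ^ t ≤ 2 ^ (2 * t) := big2 (by omega)
      have c5 := lin (16001 * J + 10000000) le_rfl
      linarith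
    calc 32 * (n + 2) ^ J * n ^ 10 ≤ 2 ^ 5 * (2 ^ (L + 2)) ^ J * (2 ^ (L + 1)) ^ 10 := by
          apply Nat.mul_le_mul
          · apply Nat.mul_le_mul (by norm_num)
            exact Nat.pow_le_pow_left b1 _
          · exact Nat.pow_le_pow_left hL2.le _
      _ = 2 ^ (5 + (L + 2) * J + (L + 1) * 10) := by
          rw [← pow_mul, ← pow_mul, ← pow_add, ← pow_add]
      _ ≤ 2 ^ (2 ^ (2 * t)) := Nat.pow_le_pow_right (by norm_num) b2
  · have h3 := exp_bound (8000 * t) (4000 * t)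
    rw [show 8000 * t + 4000 * t = 12000 * t by ring] at h3
    refine le_trans h3 (le_trans (Real.exp_le_exp.2 ?_) hexp)
    apply neg_le_neg
    exact pow_le_pow_right₀ (by norm_num) (by omega)
  · have a1 : 256000 * (t + 1) ≤ 2 ^ t := lin _ (by omega)
    have a2 : 32 * (8000 * t + 1) ≤ 2 ^ t := by omega
    have x1 : 12000 * t + t ≤ 16000 * t := by omega
    have x2 : 3 ≤ 16000 * t := by omega
    have n1 : 2 ^ (16000 * t) ≤ n := by exact_mod_cast n1r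
    have a3 : 2 ^ (12000 * t) * 2 ^ t ≤ 2 ^ (16000 * t) := by
      rw [← pow_add]
      exact big2 x1
    have a4 : 2 ^ 3 ≤ 2 ^ (16000 * t) := big2 x2
    have a5 : 2 ^ (12000 * t) * (32 * (8000 * t + 1)) ≤ 2 ^ (12000 * t) * 2 ^ t :=
      Nat.mul_le_mul_left _ a2
    have a6 : 32 * (2 ^ (12000 * t) * (8000 * t + 1)) =
        2 ^ (12000 * t) * (32 * (8000 * t + 1)) := by ring
    rw [a6]
    have a7 := le_trans a5 a3
    generalize 2 ^ (12000 * t) * (32 * (8000 * t + 1)) = X at a7 ⊢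
    generalize 2 ^ (16000 * t) = Y at a7 a4 n1
    clear a1 a2 a3 a5 a6 lin h1 h2 hL1 hL2
    omega
  · -- C11
    rw [← hL]
    have a1 : 80000 * (t + 1) ≤ 2 ^ t := lin _ (by omega)
    have a2 : 5 * (L + 1) ≤ 2 ^ t := by omega
    have a3 : (2 ^ (4 * t) + 4) * (L + 1) ≤ 2 ^ (4 * t) * 2 ^ t := by
      have c1 : 1 ≤ 2 ^ (4 * t) := Nat.one_le_two_pow
      have c2 : 2 ^ (4 * t) + 4 ≤ 2 ^ (4 * t) * 5 := by
        generalize 2 ^ (4 * t) = Y at c1 ⊢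
        omega
      calc (2 ^ (4 * t) + 4) * (L + 1) ≤ (2 ^ (4 * t) * 5) * (L + 1) :=
            Nat.mul_le_mul_right _ c2
        _ = 2 ^ (4 * t) * (5 * (L + 1)) := by ring
        _ ≤ 2 ^ (4 * t) * 2 ^ t := Nat.mul_le_mul_left _ a2
    have a4 : (((2 ^ (4 * t) : ℕ) : ℝ) * ((((2 ^ (4 * t)) + 4) * (L + 1) : ℕ) : ℝ)) ≤
        (2 : ℝ) ^ (9 * t) := by
      have c1 : 2 ^ (4 * t) * ((2 ^ (4 * t) + 4) * (L + 1)) ≤ 2 ^ (9 * t) := by
        calc 2 ^ (4 * t) * ((2 ^ (4 * t) + 4) * (L + 1)) ≤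
            2 ^ (4 * t) * (2 ^ (4 * t) * 2 ^ t) := Nat.mul_le_mul_left _ a3
          _ = 2 ^ (9 * t) := by
            rw [← pow_add, ← pow_add]
            congr 1
            ring
      exact_mod_cast c1
    have a5 : (0 : ℝ) ≤ (((2 ^ (4 * t) : ℕ) : ℝ) * ((((2 ^ (4 * t)) + 4) * (L + 1) : ℕ) : ℝ)) := by
      positivity
    calc (((2 ^ (4 * t) : ℕ) : ℝ) * ((((2 ^ (4 * t)) + 4) * (L + 1) : ℕ) : ℝ)) ^ 2 *
          (3 / 4) ^ (148 * t) ≤ ((2 : ℝ) ^ (9 * t)) ^ 2 * (1 / 2) ^ (2 * (29 * t)) :=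
          mul_le_mul (pow_le_pow_left₀ a5 a4 _) (three_quarters' (by omega)) (by positivity)
            (by positivity)
      _ = (1 / 2) ^ (40 * t) := by
          rw [half_pow, half_pow, ← pow_mul,
            show 2 * (29 * t) = 9 * t * 2 + 40 * t by ring, pow_add, mul_inv,
            ← mul_assoc, mul_inv_cancel₀ (by positivity), one_mul]
  · calc (1 / 2 : ℝ) ^ (40 * t) ≤ (1 / 2) ^ 1 :=
        pow_le_pow_of_le_one (by norm_num) (by norm_num) (by omega)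
      _ = 1 / 2 := pow_one _
  · -- C13
    rw [half_pow, inv_pow, ← pow_mul]
    have a1 : (n : ℝ) ^ 5 ≤ (2 : ℝ) ^ (16000 * (t + 1) * 5) := by
      rw [pow_mul]
      exact pow_le_pow_left₀ npr.le n2r _
    have a2 : (2 : ℝ) * 2 ^ (16000 * (t + 1) * 5) ≤ 2 ^ (40 * t * (K + 1)) := by
      rw [← pow_succ']
      apply pow_le_pow_right₀ (by norm_num)
      rw [hK]
      linarith
    have a3 : (0 : ℝ) < 2 ^ (40 * t * (K + 1)) := by positivity
    rw [← div_eq_mul_inv, div_le_one a3]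
    linarith
  · -- C14
    have e1 : (n : ℝ) ^ (-(1 / 20) : ℝ) ≥ (2 : ℝ)⁻¹ ^ (800 * (t + 1)) := by
      have c1 : ((2 : ℝ) ^ (16000 * (t + 1))) ^ (-(1 / 20) : ℝ) ≤ (n : ℝ) ^ (-(1 / 20) : ℝ) :=
        Real.rpow_le_rpow_of_nonpos npr n2r (by norm_num)
      have c2 : ((2 : ℝ) ^ (16000 * (t + 1))) ^ (-(1 / 20) : ℝ) = (2 : ℝ)⁻¹ ^ (800 * (t + 1)) := by
        rw [show 16000 * (t + 1) = 800 * (t + 1) * 20 by ring, pow_mul,
          Real.rpow_neg (by positivity), ← Real.rpow_natCast ((2 : ℝ) ^ (800 * (t + 1))) 20,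
          ← Real.rpow_mul (by positivity), inv_pow]
        norm_num
      rw [← c2]
      exact c1
    have e2 : 4 / (n : ℝ) ≤ (2 : ℝ)⁻¹ ^ (801 + 800 * t) := by
      rw [inv_pow, div_le_iff₀ npr, inv_mul_eq_div, le_div_iff₀ (by positivity)]
      calc (4 : ℝ) * 2 ^ (801 + 800 * t) = 2 ^ (2 + (801 + 800 * t)) := by
            rw [pow_add 2 2]
            norm_num only
        _ ≤ 2 ^ (16000 * t) := pow_le_pow_right₀ (by norm_num) (by omega)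
        _ ≤ n := n1r
    have e3 : ((2666 * t : ℕ) : ℝ) + 1 ≤ 2666 * ((t : ℝ) + 1) := by
      push_cast
      linarith
    have e4 : (((2666 * t : ℕ) : ℝ) + 1) ^ (K + 3) ≤ (2 : ℝ) ^ t := by
      calc (((2666 * t : ℕ) : ℝ) + 1) ^ (K + 3) ≤ (2666 * ((t : ℝ) + 1)) ^ (K + 3) :=
            pow_le_pow_left₀ (by positivity) e3 _
        _ = 2666 ^ (K + 3) * ((t : ℝ) + 1) ^ (K + 3) := mul_pow _ _ _
        _ ≤ 2 ^ t := k2r
    have e5 : (3 / 4 : ℝ) ^ (2666 * t - K - 3) ≤ (1 / 2 : ℝ) ^ (2 * (532 * t)) :=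
      three_quarters' (by omega)
    have e6 : 8 * (2 * ((2 ^ (4 * t) : ℕ) : ℝ) * (((2666 * t : ℕ) : ℝ) + 1) ^ (K + 3) *
        (3 / 4) ^ (2666 * t - K - 3)) ≤ (2 : ℝ)⁻¹ ^ (801 + 800 * t) := by
      calc 8 * (2 * ((2 ^ (4 * t) : ℕ) : ℝ) * (((2666 * t : ℕ) : ℝ) + 1) ^ (K + 3) *
          (3 / 4) ^ (2666 * t - K - 3)) ≤
          8 * (2 * ((2 ^ (4 * t) : ℕ) : ℝ) * 2 ^ t * (1 / 2) ^ (2 * (532 * t))) := by
            apply mul_le_mul_of_nonneg_left _ (by norm_num)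
            apply mul_le_mul _ e5 (by positivity) (by positivity)
            exact mul_le_mul_of_nonneg_left e4 (by positivity)
        _ = 2 ^ (4 + 5 * t) * (1 / 2) ^ (2 * (532 * t)) := by
            push_cast
            rw [pow_add, show 5 * t = 4 * t + t by ring, pow_add]
            ring
        _ ≤ (2 : ℝ)⁻¹ ^ (801 + 800 * t) := by
            rw [half_pow, inv_pow, ← div_eq_mul_inv, div_le_iff₀ (by positivity), inv_mul_eq_div,
              le_div_iff₀ (by positivity), ← pow_add]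
            exact pow_le_pow_right₀ (by norm_num) (by omega)
    have e7 : (2 : ℝ)⁻¹ ^ (800 * (t + 1)) =
        (2 : ℝ)⁻¹ ^ (801 + 800 * t) + (2 : ℝ)⁻¹ ^ (801 + 800 * t) := by
      rw [show 801 + 800 * t = 800 * (t + 1) + 1 by ring, pow_succ]
      ring
    linarith

end Pool.Agent.Y412.RS.NUM
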